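import Pool.Agent.V110.SP.Wall

/-!
# Self-reciprocal type polynomials that are large on the walls
-/

set_option autoImplicit false

open Filter Topology Set Metric Complex Polynomial

namespace Pool.Agent.V110.SP

theorem exists_P (K : ℕ) : ∃ P : ℂ[X], P.coeff 0 = 1 ∧ (∀ z : ℂ, ‖z‖ ≤ 1 → P.eval z ≠ 0) ∧
    ∃ δ > 0, ∀ j < K, ∀ z ∈ wall j, 1 + δ ≤ ‖P.eval z‖ := by
  classical
  set U : Set ℂ := {z | ‖z‖ ≠ 1 / 8} with hU
  have hUo : IsOpen U := isOpen_ne_fun continuous_norm continuous_const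
  set f : ℂ → ℂ := fun z => if ‖z‖ < 1 / 8 then 0 else 1 with hf
  have hfd : DifferentiableOn ℂ f U := by
    intro z hz
    apply DifferentiableAt.differentiableWithinAt
    rcases lt_or_gt_of_ne (show ‖z‖ ≠ 1 / 8 from hz) with h | h
    · have h1 : f =ᶠ[𝓝 z] fun _ => (0 : ℂ) := by
        filter_upwards [(isOpen_lt continuous_norm continuous_const).mem_nhds h] with w hw
        exact if_pos hw
      exact h1.differentiableAt_iff.2 (differentiableAt_const _)
    · have h1 : f =ᶠ[𝓝 z] fun _ => (1 : ℂ) := by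
        filter_upwards [(isOpen_lt continuous_const continuous_norm).mem_nhds h] with w hw
        exact if_neg (not_lt.2 (le_of_lt hw))
      exact h1.differentiableAt_iff.2 (differentiableAt_const _)
  have hGU : G K ⊆ U := by
    intro z hz
    rcases mem_G.1 hz with ⟨j, -, hj⟩ | rfl
    · change ‖z‖ ≠ 1 / 8
      rw [hj.1]
      have := r_ge j
      intro h
      linarith
    · change ‖(0 : ℂ)‖ ≠ 1 / 8
      norm_num
  obtain ⟨p, hp⟩ := ZFM.J_r3.runge (G_compact K) (G_compl_connected K) hUo hGU f hfd (1 / 8)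
    (by norm_num)
  obtain ⟨B, hB⟩ := (isCompact_closedBall (0 : ℂ) 1).exists_bound_of_continuousOn
    (f := fun z => (p - C (p.eval 0)).eval z) (Polynomial.continuous _).continuousOn
  have hB0 : 0 ≤ B := le_trans (norm_nonneg _) (hB 0 (by simp))
  set N : ℝ := B + 1 with hN
  have hN0 : 0 < N := by linarith
  have hev : ∀ z, (1 + C ((1 / N : ℝ) : ℂ) * (p - C (p.eval 0))).eval z =
      1 + ((1 / N : ℝ) : ℂ) * (p - C (p.eval 0)).eval z := by
    intro z
    simp only [eval_add, eval_one, eval_mul, eval_C]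
  refine ⟨1 + C ((1 / N : ℝ) : ℂ) * (p - C (p.eval 0)), ?_, ?_, 3 / (4 * N), by positivity, ?_⟩
  · rw [coeff_zero_eq_eval_zero, hev]
    simp
  · intro z hz h0
    rw [hev] at h0
    have h1 : ((1 / N : ℝ) : ℂ) * (p - C (p.eval 0)).eval z = -1 := by
      linear_combination h0
    have h2 := congrArg norm h1
    rw [norm_mul, norm_neg, norm_one, Complex.norm_real, Real.norm_of_nonneg (by positivity)] at h2
    have h3 := hB z (by rw [mem_closedBall, dist_zero_right]; exact hz)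
    have h4 : 1 / N * ‖(p - C (p.eval 0)).eval z‖ ≤ 1 / N * B :=
      mul_le_mul_of_nonneg_left h3 (by positivity)
    have h5 : 1 / N * B < 1 := by
      rw [one_div, inv_mul_lt_iff₀ hN0]
      linarith
    linarith
  · intro j hj z hz
    have h0 := hp 0 (mem_G.2 (Or.inr rfl))
    have h1 := hp z (mem_G.2 (Or.inl ⟨j, hj, hz⟩))
    have hf0 : f 0 = 0 := if_pos (by norm_num)
    have hfz : f z = 1 := if_neg (by rw [hz.1]; linarith [r_ge j])
    rw [hf0] at h0
    rw [hfz] at h1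
    have hre0 : (p.eval 0).re ≤ 1 / 8 := by
      have := Complex.re_le_norm (p.eval 0)
      rw [zero_sub, norm_neg] at h0
      linarith
    have hre1 : 7 / 8 ≤ (p.eval z).re := by
      have := Complex.re_le_norm (1 - p.eval z)
      rw [Complex.sub_re, Complex.one_re] at this
      linarith
    rw [hev]
    refine le_trans ?_ (Complex.re_le_norm _)
    rw [Complex.add_re, Complex.one_re, Complex.re_ofReal_mul, eval_sub, eval_C, Complex.sub_re]
    have h5 : 3 / (4 * N) = 1 / N * (3 / 4) := by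
      field_simp
    rw [h5]
    have h6 : 3 / 4 ≤ (p.eval z).re - (p.eval 0).re := by linarith
    have h7 : 1 / N * (3 / 4) ≤ 1 / N * ((p.eval z).re - (p.eval 0).re) :=
      mul_le_mul_of_nonneg_left h6 (by positivity)
    linarith

/-- the conjugate-reversed polynomial -/
noncomputable def star (P : ℂ[X]) : ℂ[X] := (P.map (starRingEnd ℂ)).reverse

theorem natDegree_map_conj (P : ℂ[X]) : (P.map (starRingEnd ℂ)).natDegree = P.natDegree :=
  natDegree_map_eq_of_injective (starRingEnd ℂ).injective P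

theorem star_eval (P : ℂ[X]) {z : ℂ} (hz : z ≠ 0) :
    (star P).eval z = z ^ P.natDegree * (starRingEnd ℂ) (P.eval ((starRingEnd ℂ) z)⁻¹) := by
  let _ : Invertible z⁻¹ := invertibleOfNonzero (inv_ne_zero hz)
  have h1 := Polynomial.eval₂_reverse_mul_pow (RingHom.id ℂ) z⁻¹ (P.map (starRingEnd ℂ))
  rw [natDegree_map_conj, invOf_eq_inv, inv_inv] at h1
  have h2 : eval₂ (RingHom.id ℂ) z⁻¹ (P.map (starRingEnd ℂ)) =
      (starRingEnd ℂ) (P.eval ((starRingEnd ℂ) z)⁻¹) := by
    rw [eval₂_id, eval_map, ← Polynomial.eval₂_at_apply]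
    congr 1
    rw [map_inv₀, Complex.conj_conj]
  rw [h2, eval₂_id] at h1
  rw [star, ← h1, mul_comm, mul_assoc, ← mul_pow, inv_mul_cancel₀ hz, one_pow, mul_one]

theorem star_monic {P : ℂ[X]} (h0 : P.coeff 0 = 1) : (star P).Monic := by
  rw [Monic, star, reverse_leadingCoeff, trailingCoeff, natTrailingDegree_eq_zero.2]
  · rw [coeff_map, h0, map_one]
  · right
    rw [coeff_map, h0, map_one]
    exact one_ne_zero

theorem star_natDegree {P : ℂ[X]} (h0 : P.coeff 0 = 1) : (star P).natDegree = P.natDegree := by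
  rw [star, reverse_natDegree, natTrailingDegree_eq_zero.2, Nat.sub_zero, natDegree_map_conj]
  right
  rw [coeff_map, h0, map_one]
  exact one_ne_zero

theorem star_le {P : ℂ[X]} (hP : ∀ z : ℂ, ‖z‖ ≤ 1 → P.eval z ≠ 0) {z : ℂ} (hz : ‖z‖ ≤ 1) :
    ‖(star P).eval z‖ ≤ ‖P.eval z‖ := by
  have hmem : ∀ w : ℂ, w ∈ closedBall (0 : ℂ) 1 → P.eval w ≠ 0 := fun w hw =>
    hP w (by simpa using hw)
  have hd : DiffContOnCl ℂ (fun w => (star P).eval w / P.eval w) (ball (0 : ℂ) 1) := by
    refine ⟨?_, ?_⟩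
    · intro w hw
      exact ((star P).differentiable.differentiableAt.div P.differentiable.differentiableAt
        (hmem w (ball_subset_closedBall hw))).differentiableWithinAt
    · rw [closure_ball _ one_ne_zero]
      exact (star P).continuous.continuousOn.div P.continuous.continuousOn hmem
  have h1 := Complex.norm_le_of_forall_mem_frontier_norm_le (C := 1) isBounded_ball hd
    (fun w hw => by
      rw [frontier_ball _ one_ne_zero] at hw
      have hw1 : ‖w‖ = 1 := by simpa using hw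
      have hw0 : w ≠ 0 := fun h => by rw [h, norm_zero] at hw1; exact zero_ne_one hw1
      have hwi : ((starRingEnd ℂ) w)⁻¹ = w := by
        rw [inv_eq_iff_eq_inv]
        refine eq_inv_of_mul_eq_one_left ?_
        rw [← Complex.normSq_eq_conj_mul_self, Complex.normSq_eq_norm_sq, hw1]
        simp
      change ‖(star P).eval w / P.eval w‖ ≤ 1
      rw [star_eval P hw0, hwi, norm_div, norm_mul, norm_pow, hw1, one_pow, one_mul,
        RCLike.norm_conj]
      exact div_self_le_one _)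
    (z := z) (by rw [closure_ball _ one_ne_zero, mem_closedBall, dist_zero_right]; exact hz)
  have h2 : 0 < ‖P.eval z‖ := norm_pos_iff.2 (hP z hz)
  rw [norm_div, div_le_one h2] at h1
  exact h1

theorem F_monic {P : ℂ[X]} (h0 : P.coeff 0 = 1) {m : ℕ} (hm : 1 ≤ m) :
    (X ^ m * star P + P).Monic ∧ (X ^ m * star P + P).natDegree = m + P.natDegree := by
  have h1 : (X ^ m * star P).Monic := (monic_X_pow m).mul (star_monic h0)
  have h2 : (X ^ m * star P).natDegree = m + P.natDegree := by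
    rw [(monic_X_pow m).natDegree_mul (star_monic h0), natDegree_X_pow, star_natDegree h0]
  have h3 : P.natDegree < (X ^ m * star P).natDegree := by
    rw [h2]; omega
  constructor
  · exact h1.add_of_left (degree_lt_degree h3)
  · rw [natDegree_add_eq_left_of_natDegree_lt h3, h2]

theorem F_roots {P : ℂ[X]} (hP : ∀ z : ℂ, ‖z‖ ≤ 1 → P.eval z ≠ 0) {m : ℕ} (hm : 1 ≤ m)
    {z : ℂ} (hz : (X ^ m * star P + P).eval z = 0) : ‖z‖ ≤ 1 := by
  by_contra hlt
  rw [not_le] at hlt
  have hz0 : z ≠ 0 := norm_pos_iff.1 (by linarith)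
  set w : ℂ := ((starRingEnd ℂ) z)⁻¹ with hw
  have hwz : ((starRingEnd ℂ) w)⁻¹ = z := by
    rw [hw, map_inv₀, Complex.conj_conj, inv_inv]
  have hwn : ‖w‖ = ‖z‖⁻¹ := by rw [hw, norm_inv, RCLike.norm_conj]
  have hw1 : ‖w‖ ≤ 1 := by
    rw [hwn]
    exact inv_le_one_of_one_le₀ hlt.le
  have hw0 : w ≠ 0 := by
    rw [hw]
    exact inv_ne_zero ((_root_.map_ne_zero _).2 hz0)
  have h1 := star_eval P hz0
  have h2 := star_eval P hw0
  rw [hwz] at h2
  rw [eval_add, eval_mul, eval_pow, eval_X] at hz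
  have h3 : ‖(star P).eval z‖ = ‖z‖ ^ P.natDegree * ‖P.eval w‖ := by
    rw [h1, norm_mul, norm_pow, RCLike.norm_conj]
  have h4 : ‖(star P).eval w‖ = (‖z‖⁻¹) ^ P.natDegree * ‖P.eval z‖ := by
    rw [h2, norm_mul, norm_pow, RCLike.norm_conj, hwn]
  have h5 := star_le hP hw1
  have h6 : 0 < ‖P.eval w‖ := norm_pos_iff.2 (hP w hw1)
  have h7 : ‖z‖ ^ m * ‖(star P).eval z‖ = ‖P.eval z‖ := by
    rw [← norm_pow, ← norm_mul, eq_neg_of_add_eq_zero_left hz, norm_neg]
  have hpos : 0 < ‖z‖ ^ P.natDegree := by positivity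
  have h8 : ‖P.eval z‖ ≤ ‖z‖ ^ P.natDegree * ‖P.eval w‖ := by
    rw [h4, inv_pow, inv_mul_le_iff₀ hpos] at h5
    exact h5
  rw [← h7, h3] at h8
  have h9 : 0 < ‖z‖ ^ P.natDegree * ‖P.eval w‖ := by positivity
  have h10 : ‖z‖ ^ m ≤ 1 := by
    by_contra hc
    rw [not_le] at hc
    nlinarith
  have h11 : 1 < ‖z‖ ^ m := one_lt_pow₀ hlt (by omega)
  linarith

/-- **admissible polynomials, larger than one on all the walls, of every large degree** -/
theorem exists_F (K : ℕ) : ∃ n₀ : ℕ, ∀ n ≥ n₀, ∃ f : ℂ[X], f.Monic ∧ f.natDegree = n ∧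
    (∀ z, f.eval z = 0 → ‖z‖ ≤ 1) ∧ ∀ j < K, ∀ z ∈ wall j, 1 < ‖f.eval z‖ := by
  obtain ⟨P, h0, hP, δ, hδ, hw⟩ := exists_P K
  obtain ⟨B, hB⟩ := (isCompact_closedBall (0 : ℂ) 1).exists_bound_of_continuousOn
    (f := fun z => (star P).eval z) (Polynomial.continuous _).continuousOn
  have ht : Tendsto (fun m : ℕ => (1 / 2 : ℝ) ^ m * B) atTop (𝓝 0) := by
    have := (tendsto_pow_atTop_nhds_zero_of_lt_one (by norm_num : (0 : ℝ) ≤ 1 / 2)
      (by norm_num)).mul_const B
    rwa [zero_mul] at this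
  obtain ⟨m₀, hm₀⟩ := eventually_atTop.1 (ht.eventually (gt_mem_nhds hδ))
  refine ⟨m₀ + 1 + P.natDegree, fun n hn => ?_⟩
  obtain ⟨m, rfl⟩ : ∃ m, n = m + P.natDegree := ⟨n - P.natDegree, by omega⟩
  have hm1 : 1 ≤ m := by omega
  refine ⟨X ^ m * star P + P, (F_monic h0 hm1).1, (F_monic h0 hm1).2,
    fun z hz => F_roots hP hm1 hz, fun j hj z hz => ?_⟩
  have h1 := hw j hj z hz
  have hzn : ‖z‖ ≤ 1 / 2 := by rw [hz.1]; exact (r_lt_half j).le
  have h2 : ‖(star P).eval z‖ ≤ B := hB z (by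
    rw [mem_closedBall, dist_zero_right]; linarith)
  have h3 : ‖z‖ ^ m * ‖(star P).eval z‖ ≤ (1 / 2) ^ m * B := by
    apply mul_le_mul (pow_le_pow_left₀ (norm_nonneg z) hzn m) h2 (norm_nonneg _) (by positivity)
  have h4 := hm₀ m (by omega)
  rw [eval_add, eval_mul, eval_pow, eval_X]
  have h5 : ‖P.eval z‖ - ‖z ^ m * (star P).eval z‖ ≤ ‖z ^ m * (star P).eval z + P.eval z‖ := by
    have := norm_sub_norm_le (P.eval z) (-(z ^ m * (star P).eval z))
    rw [norm_neg, sub_neg_eq_add, add_comm (P.eval z)] at this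
    exact this
  rw [norm_mul, norm_pow] at h5
  linarith

end Pool.Agent.V110.SP
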