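import Mathlib
import Pool.Agent.Helper240.ZFM.R3

/-!
# Concentric walls with alternating gates, and a polynomial with positive real part on them
-/

set_option autoImplicit false

open Filter Topology Set Metric Complex Polynomial

namespace Pool.Agent.V110.SP

/-- the radii -/
noncomputable def r (j : ℕ) : ℝ := 1 / 2 - 1 / (4 * ((j : ℝ) + 1))

theorem r_lt_half (j : ℕ) : r j < 1 / 2 := by
  unfold r
  have : (0 : ℝ) < 1 / (4 * ((j : ℝ) + 1)) := by positivity
  linarith

theorem r_strictMono : StrictMono r := by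
  refine strictMono_nat_of_lt_succ fun j => ?_
  unfold r
  have h : 1 / (4 * (((j + 1 : ℕ) : ℝ) + 1)) < 1 / (4 * ((j : ℝ) + 1)) := by
    apply one_div_lt_one_div_of_lt (by positivity)
    push_cast
    linarith
  linarith

theorem r_ge (j : ℕ) : 1 / 4 ≤ r j := by
  have h : r 0 ≤ r j := r_strictMono.monotone (Nat.zero_le j)
  have h0 : r 0 = 1 / 4 := by unfold r; norm_num
  linarith

/-- the sign of the gate -/
def sg (j : ℕ) : ℝ := (-1) ^ j

theorem sg_succ (j : ℕ) : sg (j + 1) = -sg j := by
  unfold sg; ring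

theorem sg_cases (j : ℕ) : sg j = 1 ∨ sg j = -1 := by
  unfold sg
  exact neg_one_pow_eq_or ℝ j

/-- the `j`-th wall -/
def wall (j : ℕ) : Set ℂ := {z | ‖z‖ = r j ∧ sg j * z.re ≤ 1 / 8}

/-- the `j`-th gate -/
def gate (j : ℕ) : Set ℂ := {z | ‖z‖ = r j ∧ 1 / 8 < sg j * z.re}

theorem wall_closed (j : ℕ) : IsClosed (wall j) :=
  (isClosed_eq continuous_norm continuous_const).inter
    (isClosed_le (continuous_const.mul continuous_re) continuous_const)

/-- the walls `0, …, K - 1` together with the origin -/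
def G (K : ℕ) : Set ℂ := (⋃ j ∈ Finset.range K, wall j) ∪ {0}

theorem mem_G {K : ℕ} {z : ℂ} : z ∈ G K ↔ (∃ j < K, z ∈ wall j) ∨ z = 0 := by
  unfold G
  simp only [Finset.mem_range, mem_union, mem_iUnion, exists_prop, mem_singleton_iff]

theorem G_compact (K : ℕ) : IsCompact (G K) := by
  refine (isCompact_closedBall (0 : ℂ) 1).of_isClosed_subset ?_ ?_
  · refine IsClosed.union ?_ isClosed_singleton
    exact isClosed_biUnion_finset fun j _ => wall_closed j
  · intro z hz
    rw [mem_closedBall, dist_zero_right]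
    rcases mem_G.1 hz with ⟨j, -, hj⟩ | rfl
    · rw [hj.1]
      linarith [r_lt_half j]
    · simp

theorem ring_preconnected {S : Set ℝ} (hS : IsPreconnected S) (h0 : ∀ x ∈ S, 0 < x) :
    IsPreconnected {z : ℂ | ‖z‖ ∈ S} := by
  have h1 : {z : ℂ | ‖z‖ ∈ S} =
      (fun p : ℝ × ℝ => (p.1 : ℂ) * Complex.exp (p.2 * Complex.I)) '' (S ×ˢ univ) := by
    ext z
    constructor
    · intro hz
      refine ⟨(‖z‖, Complex.arg z), ⟨hz, trivial⟩, ?_⟩
      exact Complex.norm_mul_exp_arg_mul_I z
    · rintro ⟨⟨r, θ⟩, ⟨hr, -⟩, rfl⟩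
      change ‖(r : ℂ) * Complex.exp (θ * Complex.I)‖ ∈ S
      rw [norm_mul, Complex.norm_exp_ofReal_mul_I, mul_one, Complex.norm_real,
        Real.norm_of_nonneg (h0 r hr).le]
      exact hr
  rw [h1]
  apply IsPreconnected.image
  · exact hS.prod isPreconnected_univ
  · fun_prop

/-- a point of a circle is in the closure of an adjacent ring -/
theorem mem_closure_ring {S : Set ℝ} (h0 : ∀ x ∈ S, 0 < x) {z : ℂ} (hz : z ≠ 0)
    (h : ‖z‖ ∈ closure S) : z ∈ closure {w : ℂ | ‖w‖ ∈ S} := by
  have hz' : ‖z‖ ≠ 0 := norm_ne_zero_iff.2 hz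
  have hc : Continuous (fun t : ℝ => ((t / ‖z‖ : ℝ) : ℂ) * z) := by fun_prop
  have h1 := map_mem_closure (t := {w : ℂ | ‖w‖ ∈ S}) hc h (fun t ht => by
    change ‖((t / ‖z‖ : ℝ) : ℂ) * z‖ ∈ S
    rw [norm_mul, Complex.norm_real, Real.norm_of_nonneg (div_nonneg (h0 t ht).le (norm_nonneg z)),
      div_mul_cancel₀ _ hz']
    exact ht)
  have h2 : ((‖z‖ / ‖z‖ : ℝ) : ℂ) * z = z := by
    rw [div_self hz']; simp
  rwa [h2] at h1

/-- the part of the complement of the walls inside the `k`-th circle -/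
def V (k : ℕ) : Set ℂ := {z | z ≠ 0 ∧ ‖z‖ < r k ∧ ∀ j < k, z ∉ wall j}

theorem not_wall_of_gt {j k : ℕ} (hjk : j ≤ k) {z : ℂ} (h : r k < ‖z‖) : z ∉ wall j := by
  intro hz
  have h1 := r_strictMono.monotone hjk
  rw [hz.1] at h
  linarith

theorem not_wall_of_eq {j k : ℕ} (hjk : j < k) {z : ℂ} (h : ‖z‖ = r k) : z ∉ wall j := by
  intro hz
  have h1 := r_strictMono hjk
  rw [hz.1] at h
  linarith

theorem gate_nonempty (k : ℕ) : (gate k).Nonempty := by
  refine ⟨((sg k * r k : ℝ) : ℂ), ?_, ?_⟩
  · rw [Complex.norm_real]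
    have h := r_ge k
    rcases sg_cases k with h1 | h1 <;> rw [h1]
    · rw [one_mul, Real.norm_of_nonneg (by linarith)]
    · rw [neg_one_mul, norm_neg, Real.norm_of_nonneg (by linarith)]
  · rw [Complex.ofReal_re]
    have h := r_ge k
    rcases sg_cases k with h1 | h1 <;> rw [h1] <;> linarith

theorem gate_ne_zero {k : ℕ} {z : ℂ} (hz : z ∈ gate k) : z ≠ 0 := by
  rintro rfl
  have h := hz.1
  rw [norm_zero] at h
  linarith [r_ge k]

theorem gate_not_wall {k : ℕ} {z : ℂ} (hz : z ∈ gate k) : z ∉ wall k := fun h => by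
  linarith [h.2, hz.2]

/-- glueing a region inside the circle with a ring outside through the gate -/
theorem glue (k : ℕ) {A : Set ℂ} (hA : IsPreconnected A)
    (hAc : ∃ δ < r k, 0 ≤ δ ∧ ∀ w : ℂ, δ < ‖w‖ → ‖w‖ < r k → w ∈ A)
    {S : Set ℝ} (hS : IsPreconnected S) (hS0 : ∀ x ∈ S, 0 < x) (hrk : r k ∈ closure S) :
    IsPreconnected ((A ∪ gate k) ∪ (gate k ∪ {z : ℂ | ‖z‖ ∈ S})) := by
  obtain ⟨g, hg⟩ := gate_nonempty k
  obtain ⟨δ, hδ, hδ0, hδA⟩ := hAc
  have h1 : IsPreconnected (A ∪ gate k) := by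
    refine hA.subset_closure subset_union_left ?_
    refine union_subset subset_closure fun z hz => ?_
    have h2 : z ∈ closure {w : ℂ | ‖w‖ ∈ Ioo δ (r k)} := by
      refine mem_closure_ring (fun x hx => lt_of_le_of_lt hδ0 hx.1) (gate_ne_zero hz) ?_
      rw [hz.1, closure_Ioo hδ.ne]
      exact right_mem_Icc.2 hδ.le
    exact closure_mono (fun w hw => hδA w hw.1 hw.2) h2
  have h2 : IsPreconnected (gate k ∪ {z : ℂ | ‖z‖ ∈ S}) := by
    refine (ring_preconnected hS hS0).subset_closure subset_union_right ?_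
    refine union_subset (fun z hz => ?_) subset_closure
    refine mem_closure_ring hS0 (gate_ne_zero hz) ?_
    rw [hz.1]
    exact hrk
  exact IsPreconnected.union g (Or.inr hg) (Or.inl hg) h1 h2

theorem V_step (k : ℕ) : IsPreconnected (V k) ∧
    ∃ δ < r k, 0 ≤ δ ∧ ∀ w : ℂ, δ < ‖w‖ → ‖w‖ < r k → w ∈ V k := by
  induction k with
  | zero =>
    constructor
    · have h1 : V 0 = {z : ℂ | ‖z‖ ∈ Ioo 0 (r 0)} := by
        ext z
        constructor
        · rintro ⟨h1, h2, -⟩
          exact ⟨norm_pos_iff.2 h1, h2⟩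
        · rintro ⟨h1, h2⟩
          exact ⟨norm_pos_iff.1 h1, h2, fun j hj => absurd hj (Nat.not_lt_zero j)⟩
      rw [h1]
      exact ring_preconnected isPreconnected_Ioo (fun x hx => hx.1)
    · exact ⟨0, by linarith [r_ge 0], le_rfl, fun w h1 h2 =>
        ⟨norm_pos_iff.1 h1, h2, fun j hj => absurd hj (Nat.not_lt_zero j)⟩⟩
  | succ k ih =>
    have hlt : r k < r (k + 1) := r_strictMono (Nat.lt_succ_self k)
    have hk0 := r_ge k
    constructor
    · have h1 : V (k + 1) = (V k ∪ gate k) ∪ (gate k ∪ {z : ℂ | ‖z‖ ∈ Ioo (r k) (r (k + 1))}) := by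
        ext z
        constructor
        · rintro ⟨h1, h2, h3⟩
          rcases lt_trichotomy ‖z‖ (r k) with h | h | h
          · exact Or.inl (Or.inl ⟨h1, h, fun j hj => h3 j (by omega)⟩)
          · refine Or.inl (Or.inr ⟨h, ?_⟩)
            by_contra hc
            exact h3 k (by omega) ⟨h, not_lt.1 hc⟩
          · exact Or.inr (Or.inr ⟨h, h2⟩)
        · rintro ((h | h) | (h | h))
          · refine ⟨h.1, h.2.1.trans hlt, fun j hj hw => ?_⟩
            rcases Nat.lt_succ_iff_lt_or_eq.1 hj with h' | rfl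
            · exact h.2.2 j h' hw
            · have h3 := h.2.1
              rw [hw.1] at h3
              exact lt_irrefl _ h3
          · refine ⟨gate_ne_zero h, by rw [h.1]; exact hlt, fun j hj => ?_⟩
            rcases Nat.lt_succ_iff_lt_or_eq.1 hj with h' | rfl
            · exact not_wall_of_eq h' h.1
            · exact gate_not_wall h
          · refine ⟨gate_ne_zero h, by rw [h.1]; exact hlt, fun j hj => ?_⟩
            rcases Nat.lt_succ_iff_lt_or_eq.1 hj with h' | rfl
            · exact not_wall_of_eq h' h.1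
            · exact gate_not_wall h
          · refine ⟨norm_pos_iff.1 (by linarith [h.1]), h.2, fun j hj => ?_⟩
            exact not_wall_of_gt (Nat.lt_succ_iff.1 hj) h.1
      rw [h1]
      refine glue k ih.1 ih.2 isPreconnected_Ioo (fun x hx => by linarith [hx.1]) ?_
      rw [closure_Ioo hlt.ne]
      exact left_mem_Icc.2 hlt.le
    · refine ⟨r k, hlt, by linarith, fun w h1 h2 => ⟨norm_pos_iff.1 (by linarith), h2,
        fun j hj => not_wall_of_gt (Nat.lt_succ_iff.1 hj) h1⟩⟩

theorem G_compl_connected (K : ℕ) : IsConnected (G K)ᶜ := by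
  constructor
  · refine ⟨1, ?_⟩
    intro h
    rcases mem_G.1 h with ⟨j, -, hj⟩ | h1
    · have := hj.1
      rw [norm_one] at this
      linarith [r_lt_half j]
    · exact one_ne_zero h1
  · rcases Nat.eq_zero_or_pos K with rfl | hK
    · have h1 : (G 0)ᶜ = {z : ℂ | ‖z‖ ∈ Ioi (0 : ℝ)} := by
        ext z
        constructor
        · intro hz
          refine norm_pos_iff.2 fun h => hz (mem_G.2 (Or.inr h))
        · intro hz hG
          rcases mem_G.1 hG with ⟨j, hj, -⟩ | h
          · exact absurd hj (Nat.not_lt_zero j)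
          · exact norm_pos_iff.1 hz h
      rw [h1]
      exact ring_preconnected isPreconnected_Ioi (fun x hx => hx)
    · obtain ⟨k, rfl⟩ : ∃ k, K = k + 1 := ⟨K - 1, by omega⟩
      have hk0 := r_ge k
      have h1 : (G (k + 1))ᶜ = (V k ∪ gate k) ∪ (gate k ∪ {z : ℂ | ‖z‖ ∈ Ioi (r k)}) := by
        ext z
        constructor
        · intro hz
          have hz' : ∀ j < k + 1, z ∉ wall j := fun j hj h => hz (mem_G.2 (Or.inl ⟨j, hj, h⟩))
          have hz0 : z ≠ 0 := fun h => hz (mem_G.2 (Or.inr h))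
          rcases lt_trichotomy ‖z‖ (r k) with h | h | h
          · exact Or.inl (Or.inl ⟨hz0, h, fun j hj => hz' j (by omega)⟩)
          · refine Or.inl (Or.inr ⟨h, ?_⟩)
            by_contra hc
            exact hz' k (by omega) ⟨h, not_lt.1 hc⟩
          · exact Or.inr (Or.inr h)
        · intro h hG
          rcases mem_G.1 hG with ⟨j, hj, hw⟩ | rfl
          · rcases h with (h | h) | (h | h)
            · rcases Nat.lt_succ_iff_lt_or_eq.1 hj with h' | rfl
              · exact h.2.2 j h' hw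
              · have h3 := h.2.1
                rw [hw.1] at h3
                exact lt_irrefl _ h3
            · rcases Nat.lt_succ_iff_lt_or_eq.1 hj with h' | rfl
              · exact not_wall_of_eq h' h.1 hw
              · exact gate_not_wall h hw
            · rcases Nat.lt_succ_iff_lt_or_eq.1 hj with h' | rfl
              · exact not_wall_of_eq h' h.1 hw
              · exact gate_not_wall h hw
            · exact not_wall_of_gt (Nat.lt_succ_iff.1 hj) h hw
          · rcases h with (h | h) | (h | h)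
            · exact h.1 rfl
            · exact gate_ne_zero h rfl
            · exact gate_ne_zero h rfl
            · change r k < ‖(0 : ℂ)‖ at h
              rw [norm_zero] at h
              linarith
      rw [h1]
      refine glue k (V_step k).1 (V_step k).2 isPreconnected_Ioi (fun x hx => by
        have : r k < x := hx
        linarith) ?_
      rw [closure_Ioi]
      exact Set.mem_Ici.2 le_rfl

end Pool.Agent.V110.SP
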